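import Pool.Agent.R560.ASP.Main

/-!
# The optimal length of all-symbol batch codes is not subadditive in `t`

Over the field with three elements, in dimension three, `ASB(3, 5, 3) ≤ 9` (the nine points of the
affine plane of order three serve any five of their points), `ASB(3, 2, 3) ≤ 4`, but
`ASB(3, 7, 3) ≥ 14`.

Definitions (`Serves`, `AllSymbolBatch`, `ASB`) are in `Pool.Agent.R560.ASP.Defs`.
-/

set_option autoImplicit false

namespace Pool.Agent.Results.MP_821f63_lc.BatchNotSubadditive

open Pool.Agent.R560.ASP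

/-- `ASB(3, 5 + 2, 3) > ASB(3, 5, 3) + ASB(3, 2, 3)`. -/
theorem result : ASB (ZMod 3) 3 5 + ASB (ZMod 3) 3 2 < ASB (ZMod 3) 3 (5 + 2) := by
  have h1 := ASB_five
  have h2 := ASB_two
  have h3 := ASB_lower
  change _ < ASB (ZMod 3) 3 7
  omega

end Pool.Agent.Results.MP_821f63_lc.BatchNotSubadditive
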