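import Pool.Agent.R560.ASP.Main

/-!
# The optimal length of all-symbol PIR codes is not subadditive in `t`

Over the field with three elements, in dimension three, `ASP(3, 5, 3) ≤ 9` (the nine points of the
affine plane of order three), `ASP(3, 2, 3) ≤ 4`, but `ASP(3, 7, 3) ≥ 14`.

Definitions (`Serves`, `AllSymbolPIR`, `ASP`) are in `Pool.Agent.R560.ASP.Defs`.
-/

set_option autoImplicit false

namespace Pool.Agent.Results.MP_821f63_lc.PirNotSubadditive

open Pool.Agent.R560.ASP

/-- `ASP(3, 5 + 2, 3) > ASP(3, 5, 3) + ASP(3, 2, 3)`. -/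
theorem result : ASP (ZMod 3) 3 5 + ASP (ZMod 3) 3 2 < ASP (ZMod 3) 3 (5 + 2) := by
  have h1 := ASP_five
  have h2 := ASP_two
  have h3 := ASP_lower
  change _ < ASP (ZMod 3) 3 7
  omega

end Pool.Agent.Results.MP_821f63_lc.PirNotSubadditive
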